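import Mathlib

set_option autoImplicit false

/-!
# MP_9adac4_al, Q1: a thin decomposition always has a simple graded subalgebra of dimension three

Let `L` be a simple Lie algebra of dimension greater than three over a perfect field of
characteristic two, with a thin decomposition `L = ⨁ K e_α`. Write `[e_α, e_β] = c(α,β) e_(α+β)`.
If `(ad e_α)²` acts on `e_β` by `lam α β`, then `lam α β = c(α,β) c(α,α+β)` is additive in `β`, since
`(ad e_α)²` lies in the centraliser of the torus, which is the torus itself. If there is no simple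
subalgebra `⟨e_α, e_β, e_(α+β)⟩`, then the Jacobi identity shows that the digraph with the edges
`α → β` for `lam α β ≠ 0` has no directed cycle; but every vertex has an incoming edge because the
torus lies in the 2-envelope.
-/

namespace Pool.Agent.Results.MP_9adac4_al.SimpleLine

section combinatorics

variable {K V : Type*} [Field K] [AddCommGroup V]

/-- the value `lam α β` by which `(ad e_α)²` acts on `e_β` -/
def lam (c : V → V → K) (α β : V) : K := c α β * c α (α + β)

variable (c : V → V → K) (h2 : ∀ v : V, v + v = 0)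
  (hself : ∀ α, c α α = 0) (hzero : ∀ α, c α 0 = 0) (hsymm : ∀ α β, c α β = c β α)
  (hjac : ∀ α β γ, α + β + γ ≠ 0 →
    c α β * c (α + β) γ + c β γ * c (β + γ) α + c γ α * c (γ + α) β = 0)
  (hadd : ∀ α β γ, lam c α (β + γ) = lam c α β + lam c α γ)
  (hno : ∀ α β, c α β ≠ 0 → c α (α + β) ≠ 0 → c β (α + β) = 0)
include h2 hself hzero hsymm hjac hadd hno

/-- Along a directed path `a k → ⋯ → a 1 → a 0` of length `k ≥ 1` we have
`c (a 0) (a 0 + a k) = 0`. -/
theorem path (k : ℕ) (hk : 1 ≤ k) : ∀ a : ℕ → V, (∀ j < k, lam c (a (j + 1)) (a j) ≠ 0) →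
    c (a 0) (a 0 + a k) = 0 := by
  induction k, hk using Nat.le_induction with
  | base =>
    intro a ha
    have h := ha 0 (by norm_num)
    rw [lam] at h
    have h1 := left_ne_zero_of_mul h
    have h3 := right_ne_zero_of_mul h
    have := hno _ _ h1 h3
    rwa [zero_add, add_comm (a 1)] at this
  | succ k hk ih =>
    intro a ha
    -- notation
    obtain ⟨δ, hδ⟩ : ∃ δ, δ = a (k + 1) := ⟨_, rfl⟩
    obtain ⟨α, hα⟩ : ∃ α, α = a k := ⟨_, rfl⟩
    obtain ⟨β, hβ⟩ : ∃ β, β = a 0 := ⟨_, rfl⟩
    obtain ⟨α₁, hα₁⟩ : ∃ α₁, α₁ = a 1 := ⟨_, rfl⟩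
    have hδα : lam c δ α ≠ 0 := by rw [hδ, hα]; exact ha k (by omega)
    have h1δ : lam c α₁ δ = 0 := by
      have := ih (fun j => a (j + 1)) (fun j hj => ha (j + 1) (by omega))
      simp only [zero_add] at this
      rw [lam, hδ, hα₁, this, mul_zero]
    have hv : ∀ v, lam c α₁ v ≠ 0 → c v (v + α) = 0 := by
      intro v hv
      have := ih (fun j => if j = 0 then v else a j) (by
        intro j hj
        by_cases h0 : j = 0
        · subst h0
          simp only [zero_add, one_ne_zero, if_false, if_true]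
          rw [← hα₁]
          exact hv
        · simp only [h0, Nat.succ_ne_zero, if_false]
          exact ha j (by omega))
      simp only [if_true, (show k ≠ 0 by omega), if_false] at this
      rw [hα]
      exact this
    have hβ1 : lam c α₁ β ≠ 0 := by
      rw [hα₁, hβ]
      exact ha 0 (by omega)
    have hβ2 : lam c α₁ (β + δ) ≠ 0 := by
      rw [hadd, h1δ, add_zero]
      exact hβ1
    have e1 := hv _ hβ1
    have e2 := hv _ hβ2
    have hδα1 : c δ α ≠ 0 := left_ne_zero_of_mul hδα
    have hδα2 : c δ (δ + α) ≠ 0 := right_ne_zero_of_mul hδα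
    have hα0 : α ≠ 0 := by
      rintro rfl
      exact hδα1 (hzero _)
    have hαδ0 : α + δ ≠ 0 := by
      intro h
      apply hδα1
      have : α = δ := by
        have h3 := h2 δ
        rw [← h] at h3
        exact (add_right_cancel h3).symm
      rw [this]
      exact hself _
    -- first step
    have e3 : c β (β + δ + α) = 0 := by
      have j1 := hjac δ β (β + δ + α) (by
        have : δ + β + (β + δ + α) = α + (δ + δ) + (β + β) := by abel
        rw [this, h2, h2, add_zero, add_zero]
        exact hα0)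
      rw [show δ + β = β + δ by abel, e2, mul_zero, zero_add,
        show β + (β + δ + α) = δ + α + (β + β) by abel, h2, add_zero,
        show β + δ + α + δ = β + α + (δ + δ) by abel, h2, add_zero, hsymm (β + α) β, e1, mul_zero,
        add_zero, hsymm (δ + α) δ] at j1
      exact (mul_eq_zero.1 j1).resolve_right hδα2
    have e4 : c (β + δ) (β + α) = 0 := by
      have j1 := hjac δ (β + δ) (β + α) (by
        have : δ + (β + δ) + (β + α) = α + (δ + δ) + (β + β) := by abel
        rw [this, h2, h2, add_zero, add_zero]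
        exact hα0)
      rw [show δ + (β + δ) = β + (δ + δ) by abel, h2, add_zero, e1, mul_zero, zero_add,
        show β + δ + (β + α) = δ + α + (β + β) by abel, h2, add_zero,
        hsymm (β + α + δ) (β + δ), show β + α + δ = β + δ + α by abel, e2, mul_zero,
        add_zero, hsymm (δ + α) δ] at j1
      exact (mul_eq_zero.1 j1).resolve_right hδα2
    have e5 : c β (β + δ) = 0 := by
      have j1 := hjac α β (β + δ) (by
        have : α + β + (β + δ) = α + δ + (β + β) := by abel
        rw [this, h2, add_zero]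
        exact hαδ0)
      rw [show α + β = β + α by abel, hsymm (β + α) (β + δ), e4, mul_zero, zero_add,
        show β + (β + δ) = δ + (β + β) by abel, h2, add_zero,
        hsymm (β + δ + α) β, e3, mul_zero, add_zero] at j1
      exact (mul_eq_zero.1 j1).resolve_right hδα1
    rw [← hβ, ← hδ]
    exact e5

/-- If every nonzero vector has an incoming edge there is a contradiction. -/
theorem no_cycle [Finite V] [Nontrivial V] (hin : ∀ v : V, v ≠ 0 → ∃ γ, lam c γ v ≠ 0) : False := by
  have hin' : ∀ v : {v : V // v ≠ 0}, ∃ γ : {v : V // v ≠ 0}, lam c γ.1 v.1 ≠ 0 := by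
    intro v
    obtain ⟨γ, hγ⟩ := hin v.1 v.2
    refine ⟨⟨γ, ?_⟩, hγ⟩
    rintro rfl
    apply hγ
    rw [lam, hsymm, hzero, zero_mul]
  choose f hf using hin'
  obtain ⟨v0, hv0⟩ := exists_ne (0 : V)
  let b : ℕ → {v : V // v ≠ 0} := fun j => f^[j] ⟨v0, hv0⟩
  have hb : ∀ j, lam c (b (j + 1)).1 (b j).1 ≠ 0 := by
    intro j
    have : b (j + 1) = f (b j) := by
      simp only [b, Function.iterate_succ', Function.comp_apply]
    rw [this]
    exact hf _
  obtain ⟨i, j, hij, hbij⟩ := Finite.exists_ne_map_eq_of_infinite b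
  wlog hlt : i < j generalizing i j
  · exact this j i hij.symm hbij.symm (by omega)
  have h1 := hb i
  by_cases hj : j = i + 1
  · rw [hj] at hbij
    rw [← hbij, lam, hself, zero_mul] at h1
    exact h1 rfl
  · have h3 := path c h2 hself hzero hsymm hjac hadd hno (j - i - 1) (by omega)
      (fun l => (b (i + 1 + l)).1) (fun l _ => hb (i + 1 + l))
    simp only [add_zero] at h3
    rw [show i + 1 + (j - i - 1) = j by omega, ← hbij] at h3
    rw [lam, h3, mul_zero] at h1
    exact h1 rfl

end combinatorics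

section defs

variable (K : Type*) [Field K] (L : Type*) [LieRing L] [LieAlgebra K L]

/-- The 2-envelope `L_2` of a Lie algebra `L` with trivial centre (for instance a simple one) over a
field of characteristic two: the restricted Lie subalgebra of `gl(L)` generated by `ad L`, that is,
the smallest subspace of `End(L)` which contains all `ad x` and is closed under commutators and
squares. -/
def twoEnvelope : Submodule K (Module.End K L) :=
  sInf {M | (∀ x : L, LieAlgebra.ad K L x ∈ M) ∧ (∀ f ∈ M, ∀ g ∈ M, f * g - g * f ∈ M) ∧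
    ∀ f ∈ M, f * f ∈ M}

/-- A torus of `L_2`: a subspace consisting of commuting semisimple elements. -/
def IsTorus (T : Submodule K (Module.End K L)) : Prop :=
  T ≤ twoEnvelope K L ∧ (∀ f ∈ T, ∀ g ∈ T, f * g = g * f) ∧
    ∀ f ∈ T, f.IsSemisimple

/-- A thin decomposition of `L`: a torus `T` of `L_2` of dimension `n`, the largest dimension of a
torus in `L_2` (the absolute toral rank of `L`), with `T ∩ L = 0`, a basis `t_1, …, t_n` of `T` with
`t_i ^ [2] = t_i`, and a basis `e_α` of `L`, indexed by the nonzero vectors `α ∈ 𝔽_2 ^ n`, such that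
`e_α` is a weight vector with weight `α`, that is `[t_i, e_α] = α_i e_α`. -/
structure ThinDecomposition (n : ℕ) where
  /-- the toral basis of the torus -/
  t : Fin n → Module.End K L
  /-- the weight vectors -/
  e : Module.Basis {α : Fin n → ZMod 2 // α ≠ 0} K L
  linearIndependent : LinearIndependent K t
  isTorus : IsTorus K L (Submodule.span K (Set.range t))
  sq : ∀ i, t i * t i = t i
  disjoint : ∀ x : L, LieAlgebra.ad K L x ∈ Submodule.span K (Set.range t) →
    LieAlgebra.ad K L x = 0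
  toralRank : ∀ T : Submodule K (Module.End K L), IsTorus K L T → Module.finrank K T ≤ n
  weight : ∀ i α, t i (e α) = if α.1 i = 0 then 0 else e α

end defs

section lie

variable {K : Type*} [Field K] {L : Type*} [LieRing L] [LieAlgebra K L] [CharP K 2]

theorem two0 : (2 : K) = 0 := by exact_mod_cast CharP.cast_eq_zero K 2

omit [LieAlgebra K L] in
include K in
theorem add_self' [Module K L] (x : L) : x + x = 0 := by
  have : x + x = (2 : K) • x := by module
  rw [this, two0, zero_smul]

theorem env_le (M : Submodule K (Module.End K L)) (had : ∀ x : L, LieAlgebra.ad K L x ∈ M)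
    (hsq : ∀ f ∈ M, f * f ∈ M) (f : Module.End K L) (hf : f ∈ twoEnvelope K L) : f ∈ M := by
  have : twoEnvelope K L ≤ M := by
    refine sInf_le ⟨had, ?_, hsq⟩
    intro f hf g hg
    have h1 := hsq _ (M.add_mem hf hg)
    have h2 := M.sub_mem (M.sub_mem h1 (hsq _ hf)) (hsq _ hg)
    have e : f * g - g * f = (f + g) * (f + g) - f * f - g * g - (2 : K) • (g * f) := by
      rw [two_smul]
      noncomm_ring
    rw [e, two0, zero_smul, sub_zero]
    exact h2
  exact this hf

theorem env_der (f : Module.End K L) (hf : f ∈ twoEnvelope K L) (x y : L) :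
    f ⁅x, y⁆ = ⁅f x, y⁆ + ⁅x, f y⁆ := by
  let M : Submodule K (Module.End K L) :=
    { carrier := {f | ∀ x y : L, f ⁅x, y⁆ = ⁅f x, y⁆ + ⁅x, f y⁆}
      add_mem' := by
        intro f g hf hg x y
        simp only [LinearMap.add_apply, hf x y, hg x y, add_lie, lie_add]
        abel
      zero_mem' := by
        intro x y
        simp
      smul_mem' := by
        intro a f hf x y
        simp only [LinearMap.smul_apply, hf x y, smul_lie, lie_smul, smul_add] }
  have h : f ∈ M := by
    apply env_le M _ _ f hf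
    · intro z x y
      simp only [LieAlgebra.ad_apply]
      rw [leibniz_lie z x y]
    · intro g hg x y
      simp only [Module.End.mul_apply]
      rw [hg x y, map_add, hg, hg]
      have e := add_self' (K := K) ⁅g x, g y⁆
      have e2 : ⁅g (g x), y⁆ + ⁅g x, g y⁆ + (⁅g x, g y⁆ + ⁅x, g (g y)⁆) =
        ⁅g (g x), y⁆ + ⁅x, g (g y)⁆ + (⁅g x, g y⁆ + ⁅g x, g y⁆) := by abel
      rw [e2, e, add_zero]
  exact h x y

variable {n : ℕ} (D : ThinDecomposition K L n)

/-- the basis vectors, extended by zero -/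
noncomputable def Ex (α : Fin n → ZMod 2) : L := if h : α ≠ 0 then D.e ⟨α, h⟩ else 0

omit [CharP K 2] in
theorem Ex_zero : Ex D 0 = 0 := by simp [Ex]

omit [CharP K 2] in
theorem Ex_of (α : Fin n → ZMod 2) (h : α ≠ 0) : Ex D α = D.e ⟨α, h⟩ := by
  simp only [Ex, h, ne_eq, not_false_eq_true, dif_pos]

omit [CharP K 2] in
theorem Ex_ne (α : Fin n → ZMod 2) (h : α ≠ 0) : Ex D α ≠ 0 := by
  rw [Ex_of D α h]
  exact D.e.ne_zero _

omit [CharP K 2] in
theorem t_Ex (i : Fin n) (α : Fin n → ZMod 2) :
    D.t i (Ex D α) = if α i = 0 then 0 else Ex D α := by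
  by_cases h : α = 0
  · subst h
    simp [Ex_zero]
  · rw [Ex_of D α h, D.weight]

omit [CharP K 2] in
theorem repr_t (i : Fin n) (z : L) (γ : {α : Fin n → ZMod 2 // α ≠ 0}) :
    D.e.repr (D.t i z) γ = if γ.1 i = 0 then 0 else D.e.repr z γ := by
  have h : D.e.coord γ ∘ₗ D.t i = (if γ.1 i = 0 then (0 : K) else 1) • D.e.coord γ := by
    apply D.e.ext
    intro α
    simp only [LinearMap.comp_apply, LinearMap.smul_apply, Module.Basis.coord_apply, D.weight]
    by_cases hαγ : α = γ
    · subst hαγ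
      by_cases h0 : α.1 i = 0
      · simp [h0]
      · simp [h0]
    · have h1 : D.e.repr (D.e α) γ = 0 := by
        rw [Module.Basis.repr_self, Finsupp.single_apply, if_neg hαγ]
      rw [h1, smul_zero]
      split_ifs
      · rw [map_zero, Finsupp.zero_apply]
      · exact h1
  have h1 := LinearMap.congr_fun h z
  simp only [LinearMap.comp_apply, LinearMap.smul_apply, Module.Basis.coord_apply] at h1
  rw [h1]
  split_ifs <;> simp

/-- structure constants -/
noncomputable def sc (α β : Fin n → ZMod 2) : K :=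
  if h : α + β ≠ 0 then D.e.repr ⁅Ex D α, Ex D β⁆ ⟨α + β, h⟩ else 0

theorem zmod2 (a : ZMod 2) : a = 0 ∨ a = 1 := by
  revert a; decide

theorem grading (α β : Fin n → ZMod 2) : ⁅Ex D α, Ex D β⁆ = sc D α β • Ex D (α + β) := by
  -- the bracket is a weight vector
  have ht : ∀ i, D.t i ∈ twoEnvelope K L := fun i =>
    D.isTorus.1 (Submodule.subset_span ⟨i, rfl⟩)
  have h1 : ∀ i, D.t i ⁅Ex D α, Ex D β⁆ = if (α + β) i = 0 then 0 else ⁅Ex D α, Ex D β⁆ := by
    intro i
    rw [env_der _ (ht i), t_Ex, t_Ex, Pi.add_apply]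
    rcases zmod2 (α i) with ha | ha <;> rcases zmod2 (β i) with hb | hb
    · simp [ha, hb]
    · simp [ha, hb]
    · simp [ha, hb]
    · simp only [ha, hb, one_ne_zero, if_false]
      rw [add_self' (K := K)]
      rw [if_pos (by decide)]
  have h2 : ∀ γ : {α : Fin n → ZMod 2 // α ≠ 0}, D.e.repr ⁅Ex D α, Ex D β⁆ γ ≠ 0 → γ.1 = α + β := by
    intro γ hγ
    funext i
    have h3 := congrArg (fun z => D.e.repr z γ) (h1 i)
    simp only [repr_t] at h3
    rcases zmod2 (γ.1 i) with ha | ha <;> rcases zmod2 ((α + β) i) with hb | hb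
    · rw [ha, hb]
    · exfalso
      rw [if_pos ha, hb, if_neg one_ne_zero] at h3
      exact hγ h3.symm
    · exfalso
      rw [if_pos hb, ha, if_neg one_ne_zero, map_zero] at h3
      exact hγ h3
    · rw [ha, hb]
  by_cases h0 : α + β = 0
  · rw [h0, Ex_zero, smul_zero]
    apply D.e.repr.injective
    ext γ
    rw [map_zero, Finsupp.zero_apply]
    by_contra hne
    exact γ.2 (by rw [h2 γ hne, h0])
  · rw [sc, dif_pos h0, Ex_of D _ h0]
    apply D.e.repr.injective
    ext γ
    rw [map_smul, Finsupp.smul_apply, Module.Basis.repr_self, smul_eq_mul, Finsupp.single_apply]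
    by_cases hγ : (⟨α + β, h0⟩ : {α : Fin n → ZMod 2 // α ≠ 0}) = γ
    · rw [if_pos hγ, mul_one, hγ]
    · rw [if_neg hγ, mul_zero]
      by_contra hne
      exact hγ (Subtype.ext (h2 γ hne).symm)

omit [CharP K 2] in
theorem V2 (v : Fin n → ZMod 2) : v + v = 0 := by
  funext i
  rw [Pi.add_apply, Pi.zero_apply]
  rcases zmod2 (v i) with h | h <;> rw [h] <;> decide

omit [CharP K 2] in
theorem sc_self (α : Fin n → ZMod 2) : sc D α α = 0 := by
  rw [sc, dif_neg (by rw [not_not]; exact V2 α)]

omit [CharP K 2] in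
theorem sc_zero (α : Fin n → ZMod 2) : sc D α 0 = 0 := by
  rw [sc, Ex_zero, lie_zero]
  split_ifs <;> simp

theorem sc_symm (α β : Fin n → ZMod 2) : sc D α β = sc D β α := by
  by_cases h : α + β = 0
  · rw [sc, dif_neg (by rwa [not_not]), sc, dif_neg (by rwa [not_not, add_comm])]
  · have h1 := grading D α β
    have h2 := grading D β α
    rw [← lie_skew, h1, add_comm β α, ← neg_smul] at h2
    have h3 : -sc D α β = sc D β α := by
      by_contra hne
      have : (-sc D α β - sc D β α) • Ex D (α + β) = 0 := by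
        rw [sub_smul, h2, sub_self]
      rcases smul_eq_zero.1 this with h4 | h4
      · exact hne (sub_eq_zero.1 h4)
      · exact Ex_ne D _ h h4
    linear_combination h3 + sc D α β * two0 (K := K)

theorem sc_jac (α β γ : Fin n → ZMod 2) (h : α + β + γ ≠ 0) :
    sc D α β * sc D (α + β) γ + sc D β γ * sc D (β + γ) α + sc D γ α * sc D (γ + α) β = 0 := by
  have h1 := lie_jacobi (Ex D γ) (Ex D α) (Ex D β)
  rw [grading D α β, grading D β γ, grading D γ α, lie_smul, lie_smul, lie_smul, grading, grading,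
    grading, show γ + (α + β) = α + β + γ by abel, show α + (β + γ) = α + β + γ by abel,
    show β + (γ + α) = α + β + γ by abel, smul_smul, smul_smul, smul_smul, ← add_smul, ← add_smul,
    sc_symm D γ (α + β), sc_symm D α (β + γ), sc_symm D β (γ + α)] at h1
  exact (smul_eq_zero.1 h1).resolve_right (Ex_ne D _ h)

theorem ad_sq (α β : Fin n → ZMod 2) :
    (LieAlgebra.ad K L (Ex D α) * LieAlgebra.ad K L (Ex D α)) (Ex D β) =
      lam (sc D) α β • Ex D β := by
  rw [Module.End.mul_apply, LieAlgebra.ad_apply, LieAlgebra.ad_apply, grading, lie_smul, grading,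
    smul_smul, ← add_assoc, V2, zero_add, lam]


omit [CharP K 2] in
/-- diagonal endomorphisms commute -/
theorem diag_comm (f g : Module.End K L) (hf : ∀ α, ∃ μ : K, f (D.e α) = μ • D.e α)
    (hg : ∀ α, ∃ μ : K, g (D.e α) = μ • D.e α) : f * g = g * f := by
  apply D.e.ext
  intro α
  obtain ⟨μ, hμ⟩ := hf α
  obtain ⟨ν, hν⟩ := hg α
  rw [Module.End.mul_apply, Module.End.mul_apply, hμ, hν, map_smul, map_smul, hμ, hν, smul_smul,
    smul_smul, mul_comm]

omit [CharP K 2] in
theorem diag_semisimple (f : Module.End K L) (hf : ∀ α, ∃ μ : K, f (D.e α) = μ • D.e α) :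
    f.IsSemisimple := by
  classical
  choose μ hμ using hf
  let s : Finset K := Finset.univ.image μ
  apply Module.End.isSemisimple_of_squarefree_aeval_eq_zero
    (p := ∏ a ∈ s, (Polynomial.X - Polynomial.C a))
  · apply Polynomial.Separable.squarefree
    rw [Polynomial.separable_prod_X_sub_C_iff']
    intro x _ y _ hxy
    exact hxy
  · apply D.e.ext
    intro α
    rw [LinearMap.zero_apply]
    have hα : μ α ∈ s := Finset.mem_image_of_mem _ (Finset.mem_univ _)
    rw [← Finset.prod_erase_mul s _ hα, map_mul, Module.End.mul_apply]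
    have : (Polynomial.aeval f (Polynomial.X - Polynomial.C (μ α))) (D.e α) = 0 := by
      simp [hμ]
    rw [this, map_zero]

theorem lam_add (α β γ : Fin n → ZMod 2) :
    lam (sc D) α (β + γ) = lam (sc D) α β + lam (sc D) α γ := by
  let Z : Submodule K (Module.End K L) :=
    { carrier := {f | f ∈ twoEnvelope K L ∧ ∀ α, ∃ μ : K, f (D.e α) = μ • D.e α}
      add_mem' := by
        rintro f g ⟨hf, hf'⟩ ⟨hg, hg'⟩
        refine ⟨Submodule.add_mem _ hf hg, fun α => ?_⟩
        obtain ⟨μ, hμ⟩ := hf' α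
        obtain ⟨ν, hν⟩ := hg' α
        exact ⟨μ + ν, by rw [LinearMap.add_apply, hμ, hν, add_smul]⟩
      zero_mem' := ⟨Submodule.zero_mem _, fun α => ⟨0, by simp⟩⟩
      smul_mem' := by
        rintro a f ⟨hf, hf'⟩
        refine ⟨Submodule.smul_mem _ _ hf, fun α => ?_⟩
        obtain ⟨μ, hμ⟩ := hf' α
        exact ⟨a * μ, by rw [LinearMap.smul_apply, hμ, smul_smul]⟩ }
  have hZ : IsTorus K L Z := by
    refine ⟨fun f hf => hf.1, fun f hf g hg => diag_comm D f g hf.2 hg.2,
      fun f hf => diag_semisimple D f hf.2⟩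
  have hle : Submodule.span K (Set.range D.t) ≤ Z := by
    rw [Submodule.span_le]
    rintro _ ⟨i, rfl⟩
    refine ⟨D.isTorus.1 (Submodule.subset_span ⟨i, rfl⟩), fun α => ?_⟩
    rw [D.weight]
    split_ifs
    · exact ⟨0, by simp⟩
    · exact ⟨1, by simp⟩
  have : FiniteDimensional K L := Module.Finite.of_basis D.e
  have hEq : Submodule.span K (Set.range D.t) = Z := by
    apply Submodule.eq_of_le_of_finrank_le hle
    rw [finrank_span_eq_card D.linearIndependent, Fintype.card_fin]
    exact D.toralRank Z hZ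
  have hmem : LieAlgebra.ad K L (Ex D α) * LieAlgebra.ad K L (Ex D α) ∈ Z := by
    refine ⟨?_, ?_⟩
    · rw [twoEnvelope, Submodule.mem_sInf]
      intro M hM
      exact hM.2.2 _ (hM.1 _)
    · intro δ
      refine ⟨lam (sc D) α δ.1, ?_⟩
      have := ad_sq D α δ.1
      rwa [Ex_of D δ.1 δ.2] at this
  rw [← hEq, Submodule.mem_span_range_iff_exists_fun] at hmem
  obtain ⟨a, ha⟩ := hmem
  have hφ : ∀ δ : Fin n → ZMod 2, lam (sc D) α δ = ∑ i, if δ i = 0 then 0 else a i := by
    intro δ
    by_cases hδ : δ = 0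
    · subst hδ
      rw [lam, sc_zero, zero_mul]
      simp
    · have h1 := ad_sq D α δ
      rw [← ha, LinearMap.sum_apply] at h1
      have h2 : ∀ i, (a i • D.t i) (Ex D δ) = (if δ i = 0 then 0 else a i) • Ex D δ := by
        intro i
        rw [LinearMap.smul_apply, t_Ex]
        split_ifs <;> simp
      rw [Finset.sum_congr rfl (fun i _ => h2 i), ← Finset.sum_smul] at h1
      have h3 : (∑ i, (if δ i = 0 then 0 else a i) - lam (sc D) α δ) • Ex D δ = 0 := by
        rw [sub_smul, h1, sub_self]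
      exact (sub_eq_zero.1 ((smul_eq_zero.1 h3).resolve_right (Ex_ne D _ hδ))).symm
  rw [hφ, hφ, hφ, ← Finset.sum_add_distrib]
  apply Finset.sum_congr rfl
  intro i _
  rw [Pi.add_apply]
  rcases zmod2 (β i) with hb | hb <;> rcases zmod2 (γ i) with hc | hc
  · simp [hb, hc]
  · simp [hb, hc]
  · simp [hb, hc]
  · rw [hb, hc, if_pos (by decide), if_neg one_ne_zero]
    linear_combination -(a i) * two0 (K := K)

theorem incoming (v : Fin n → ZMod 2) (hv : v ≠ 0) : ∃ γ, lam (sc D) γ v ≠ 0 := by
  by_contra hcon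
  push Not at hcon
  let Z : Submodule K (Module.End K L) :=
    { carrier := {f | (∀ x y : L, f ⁅x, y⁆ = ⁅f x, y⁆ + ⁅x, f y⁆) ∧
        (∀ α, ∃ μ : K, f (D.e α) = μ • D.e α) ∧ f (Ex D v) = 0}
      add_mem' := by
        rintro f g ⟨hf, hf', hf''⟩ ⟨hg, hg', hg''⟩
        refine ⟨fun x y => ?_, fun α => ?_, ?_⟩
        · simp only [LinearMap.add_apply, hf x y, hg x y, add_lie, lie_add]
          abel
        · obtain ⟨μ, hμ⟩ := hf' α
          obtain ⟨ν, hν⟩ := hg' α
          exact ⟨μ + ν, by rw [LinearMap.add_apply, hμ, hν, add_smul]⟩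
        · rw [LinearMap.add_apply, hf'', hg'', add_zero]
      zero_mem' := ⟨by simp, fun α => ⟨0, by simp⟩, by simp⟩
      smul_mem' := by
        rintro a f ⟨hf, hf', hf''⟩
        refine ⟨fun x y => ?_, fun α => ?_, ?_⟩
        · simp only [LinearMap.smul_apply, hf x y, smul_lie, lie_smul, smul_add]
        · obtain ⟨μ, hμ⟩ := hf' α
          exact ⟨a * μ, by rw [LinearMap.smul_apply, hμ, smul_smul]⟩
        · rw [LinearMap.smul_apply, hf'', smul_zero] }
  let M : Submodule K (Module.End K L) := LinearMap.range (LieAlgebra.ad K L : L →ₗ[K] _) ⊔ Z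
  have hadM : ∀ x : L, LieAlgebra.ad K L x ∈ M := fun x => Submodule.mem_sup_left ⟨x, rfl⟩
  have hadsq : ∀ x : L, LieAlgebra.ad K L x * LieAlgebra.ad K L x ∈ M := by
    intro x
    have hx : x ∈ Submodule.span K (Set.range D.e) := by
      rw [D.e.span_eq]; exact Submodule.mem_top
    induction hx using Submodule.span_induction with
    | mem x hx =>
      obtain ⟨α, rfl⟩ := hx
      apply Submodule.mem_sup_right
      have hE : D.e α = Ex D α.1 := (Ex_of D α.1 α.2).symm
      refine ⟨fun x y => ?_, fun β => ?_, ?_⟩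
      · simp only [Module.End.mul_apply, LieAlgebra.ad_apply]
        rw [leibniz_lie (D.e α) x y, lie_add, leibniz_lie (D.e α) ⁅D.e α, x⁆ y,
          leibniz_lie (D.e α) x ⁅D.e α, y⁆]
        have e := add_self' (K := K) ⁅⁅D.e α, x⁆, ⁅D.e α, y⁆⁆
        have e2 : ⁅⁅D.e α, ⁅D.e α, x⁆⁆, y⁆ + ⁅⁅D.e α, x⁆, ⁅D.e α, y⁆⁆ +
            (⁅⁅D.e α, x⁆, ⁅D.e α, y⁆⁆ + ⁅x, ⁅D.e α, ⁅D.e α, y⁆⁆⁆) =
            ⁅⁅D.e α, ⁅D.e α, x⁆⁆, y⁆ + ⁅x, ⁅D.e α, ⁅D.e α, y⁆⁆⁆ +
            (⁅⁅D.e α, x⁆, ⁅D.e α, y⁆⁆ + ⁅⁅D.e α, x⁆, ⁅D.e α, y⁆⁆) := by abel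
        rw [e2, e, add_zero]
      · refine ⟨lam (sc D) α.1 β.1, ?_⟩
        have := ad_sq D α.1 β.1
        rwa [Ex_of D β.1 β.2, ← hE] at this
      · rw [hE, ad_sq, hcon, zero_smul]
    | zero => simp
    | add x y _ _ hx hy =>
      rw [map_add]
      have e : (LieAlgebra.ad K L x + LieAlgebra.ad K L y) *
          (LieAlgebra.ad K L x + LieAlgebra.ad K L y) =
          LieAlgebra.ad K L x * LieAlgebra.ad K L x + LieAlgebra.ad K L y * LieAlgebra.ad K L y +
          LieAlgebra.ad K L ⁅x, y⁆ +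
          (2 : K) • (LieAlgebra.ad K L y * LieAlgebra.ad K L x) := by
        ext z
        simp only [Module.End.mul_apply, LinearMap.add_apply, LieAlgebra.ad_apply, lie_add,
          two_smul]
        rw [lie_lie]
        abel
      rw [e, two0, zero_smul, add_zero]
      exact M.add_mem (M.add_mem hx hy) (hadM _)
    | smul a x _ hx =>
      rw [map_smul, smul_mul_assoc, mul_smul_comm]
      exact M.smul_mem _ (M.smul_mem _ hx)
  have hsq : ∀ f ∈ M, f * f ∈ M := by
    intro f hf
    obtain ⟨_, ⟨x, rfl⟩, z, hz, rfl⟩ := Submodule.mem_sup.1 hf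
    change (LieAlgebra.ad K L x + z) * (LieAlgebra.ad K L x + z) ∈ M
    have e : (LieAlgebra.ad K L x + z) * (LieAlgebra.ad K L x + z) =
        LieAlgebra.ad K L x * LieAlgebra.ad K L x + z * z + LieAlgebra.ad K L (z x) +
          (2 : K) • (LieAlgebra.ad K L x * z) := by
      ext y
      simp only [Module.End.mul_apply, LinearMap.add_apply, LieAlgebra.ad_apply, two_smul, map_add]
      rw [hz.1 x y]
      abel
    rw [e, two0, zero_smul, add_zero]
    refine M.add_mem (M.add_mem (hadsq x) (Submodule.mem_sup_right ?_)) (hadM _)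
    refine ⟨fun a b => ?_, fun α => ?_, ?_⟩
    · simp only [Module.End.mul_apply]
      rw [hz.1 a b, map_add, hz.1, hz.1]
      have e := add_self' (K := K) ⁅z a, z b⁆
      have e2 : ⁅z (z a), b⁆ + ⁅z a, z b⁆ + (⁅z a, z b⁆ + ⁅a, z (z b)⁆) =
        ⁅z (z a), b⁆ + ⁅a, z (z b)⁆ + (⁅z a, z b⁆ + ⁅z a, z b⁆) := by abel
      rw [e2, e, add_zero]
    · obtain ⟨μ, hμ⟩ := hz.2.1 α
      exact ⟨μ * μ, by rw [Module.End.mul_apply, hμ, map_smul, hμ, smul_smul]⟩
    · rw [Module.End.mul_apply, hz.2.2, map_zero]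
  -- the coefficient of `e_v` in `f (e_v)` vanishes for all `f` in the 2-envelope
  have hcoef' : ∀ x : L, D.e.repr ⁅x, Ex D v⁆ ⟨v, hv⟩ = 0 := by
    intro x
    have hx : x ∈ Submodule.span K (Set.range D.e) := by
      rw [D.e.span_eq]; exact Submodule.mem_top
    induction hx using Submodule.span_induction with
    | mem x hx =>
      obtain ⟨α, rfl⟩ := hx
      have hE : D.e α = Ex D α.1 := (Ex_of D α.1 α.2).symm
      rw [hE, grading, map_smul, Finsupp.smul_apply]
      by_cases h0 : α.1 + v = 0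
      · rw [h0, Ex_zero]
        simp
      · rw [Ex_of D _ h0, Module.Basis.repr_self, Finsupp.single_apply, if_neg, smul_zero]
        intro h
        have h1 := congrArg Subtype.val h
        simp only [add_eq_right] at h1
        exact α.2 h1
    | zero => simp
    | add x y _ _ hx hy => rw [add_lie, map_add, Finsupp.add_apply, hx, hy, add_zero]
    | smul a x _ hx => rw [smul_lie, map_smul, Finsupp.smul_apply, hx, smul_zero]
  have hcoef : ∀ f ∈ M, D.e.repr (f (Ex D v)) ⟨v, hv⟩ = 0 := by
    intro f hf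
    obtain ⟨_, ⟨x, rfl⟩, z, hz, rfl⟩ := Submodule.mem_sup.1 hf
    rw [LinearMap.add_apply, hz.2.2, add_zero]
    exact hcoef' x
  apply hv
  funext i
  have h1 := hcoef _ (env_le M hadM hsq _ (D.isTorus.1 (Submodule.subset_span ⟨i, rfl⟩)))
  rw [t_Ex] at h1
  by_contra hne
  rw [Pi.zero_apply] at hne
  rw [if_neg hne, Ex_of D v hv, Module.Basis.repr_self, Finsupp.single_eq_same] at h1
  exact one_ne_zero h1


end lie

section simple3

variable {K : Type*} [Field K] {L : Type*} [LieRing L] [LieAlgebra K L]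

/-- A three-dimensional Lie algebra with `[x,y] = p z`, `[y,z] = q x`, `[z,x] = r y` and
`p, q, r ≠ 0` is simple. -/
theorem simple3 (x y z : L) (p q r : K) (hp : p ≠ 0) (hq : q ≠ 0) (hr : r ≠ 0)
    (hz0 : z ≠ 0) (hxy : ⁅x, y⁆ = p • z) (hyz : ⁅y, z⁆ = q • x) (hzx : ⁅z, x⁆ = r • y) :
    ∃ M : LieSubalgebra K L, M.toSubmodule = Submodule.span K {x, y, z} ∧
      LieAlgebra.IsSimple K M := by
  have hyx : ⁅y, x⁆ = -(p • z) := by rw [← hxy, lie_skew]
  have hzy : ⁅z, y⁆ = -(q • x) := by rw [← hyz, lie_skew]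
  have hxz : ⁅x, z⁆ = -(r • y) := by rw [← hzx, lie_skew]
  have hlie : ∀ a b c a' b' c' : K, ⁅a • x + b • y + c • z, a' • x + b' • y + c' • z⁆ =
      ((b * c' - c * b') * q) • x + ((c * a' - a * c') * r) • y +
        ((a * b' - b * a') * p) • z := by
    intro a b c a' b' c'
    simp only [add_lie, lie_add, smul_lie, lie_smul, lie_self, hxy, hyz, hzx, hyx, hzy, hxz]
    module
  let M : LieSubalgebra K L :=
    { Submodule.span K {x, y, z} with
      lie_mem' := by
        intro u v hu hv
        obtain ⟨a, b, c, rfl⟩ := Submodule.mem_span_triple.1 hu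
        obtain ⟨a', b', c', rfl⟩ := Submodule.mem_span_triple.1 hv
        rw [hlie]
        exact Submodule.mem_span_triple.2 ⟨_, _, _, rfl⟩ }
  have hM : ∀ u : L, u ∈ M ↔ ∃ a b c : K, a • x + b • y + c • z = u := fun u =>
    Submodule.mem_span_triple
  refine ⟨M, rfl, ?_⟩
  let X : M := ⟨x, (hM x).2 ⟨1, 0, 0, by simp⟩⟩
  let Y : M := ⟨y, (hM y).2 ⟨0, 1, 0, by simp⟩⟩
  let Z : M := ⟨z, (hM z).2 ⟨0, 0, 1, by simp⟩⟩
  have hXY : ⁅X, Y⁆ = p • Z := Subtype.ext hxy
  have hYZ : ⁅Y, Z⁆ = q • X := Subtype.ext hyz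
  have hZX : ⁅Z, X⁆ = r • Y := Subtype.ext hzx
  have hrep : ∀ u : M, ∃ a b c : K, u = a • X + b • Y + c • Z := by
    intro u
    obtain ⟨a, b, c, h⟩ := (hM u.1).1 u.2
    exact ⟨a, b, c, Subtype.ext h.symm⟩
  refine ⟨?_, ?_⟩
  · intro I
    by_cases hI : I = ⊥
    · exact Or.inl hI
    right
    -- one of the three basis vectors is in `I`
    have hsm : ∀ (a : K) (w : M), a ≠ 0 → a • w ∈ I → w ∈ I := by
      intro a w ha h
      have := I.smul_mem a⁻¹ h
      rwa [smul_smul, inv_mul_cancel₀ ha, one_smul] at this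
    have hcyc1 : X ∈ I → Y ∈ I ∧ Z ∈ I := by
      intro h
      refine ⟨hsm r _ hr ?_, hsm p _ hp ?_⟩
      · rw [← hZX]
        exact I.lie_mem h
      · rw [← hXY, ← lie_skew]
        exact I.neg_mem (I.lie_mem h)
    have hcyc2 : Y ∈ I → Z ∈ I ∧ X ∈ I := by
      intro h
      refine ⟨hsm p _ hp ?_, hsm q _ hq ?_⟩
      · rw [← hXY]
        exact I.lie_mem h
      · rw [← hYZ, ← lie_skew]
        exact I.neg_mem (I.lie_mem h)
    have hcyc3 : Z ∈ I → X ∈ I ∧ Y ∈ I := by
      intro h
      refine ⟨hsm q _ hq ?_, hsm r _ hr ?_⟩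
      · rw [← hYZ]
        exact I.lie_mem h
      · rw [← hZX, ← lie_skew]
        exact I.neg_mem (I.lie_mem h)
    have hall : X ∈ I ∧ Y ∈ I ∧ Z ∈ I := by
      obtain ⟨u, huI, hu0⟩ : ∃ u ∈ I, u ≠ 0 := by
        by_contra hcon
        push Not at hcon
        exact hI ((LieSubmodule.eq_bot_iff I).2 hcon)
      obtain ⟨a, b, c, rfl⟩ := hrep u
      have hYX : ⁅Y, X⁆ = -(p • Z) := by rw [← hXY, lie_skew]
      have hZY : ⁅Z, Y⁆ = -(q • X) := by rw [← hYZ, lie_skew]
      have hXZ : ⁅X, Z⁆ = -(r • Y) := by rw [← hZX, lie_skew]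
      have h1 : (p * r) • (a • X + b • Y + c • Z) + ⁅X, ⁅X, a • X + b • Y + c • Z⁆⁆ =
          (p * r * a) • X := by
        simp only [lie_add, lie_smul, lie_self, hXY, hXZ, lie_neg, smul_zero, lie_zero]
        module
      have h2 : (p * q) • (a • X + b • Y + c • Z) + ⁅Y, ⁅Y, a • X + b • Y + c • Z⁆⁆ =
          (p * q * b) • Y := by
        simp only [lie_add, lie_smul, lie_self, hYX, hYZ, lie_neg, smul_zero, lie_zero]
        module
      have h3 : (q * r) • (a • X + b • Y + c • Z) + ⁅Z, ⁅Z, a • X + b • Y + c • Z⁆⁆ =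
          (q * r * c) • Z := by
        simp only [lie_add, lie_smul, lie_self, hZX, hZY, lie_neg, smul_zero, lie_zero]
        module
      have h1' : (p * r * a) • X ∈ I := by
        rw [← h1]
        exact I.add_mem (I.smul_mem _ huI) (I.lie_mem (I.lie_mem huI))
      have h2' : (p * q * b) • Y ∈ I := by
        rw [← h2]
        exact I.add_mem (I.smul_mem _ huI) (I.lie_mem (I.lie_mem huI))
      have h3' : (q * r * c) • Z ∈ I := by
        rw [← h3]
        exact I.add_mem (I.smul_mem _ huI) (I.lie_mem (I.lie_mem huI))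
      by_cases ha : a = 0
      · by_cases hb : b = 0
        · by_cases hc : c = 0
          · exfalso
            apply hu0
            rw [ha, hb, hc]
            simp
          · have hZ := hsm _ _ (mul_ne_zero (mul_ne_zero hq hr) hc) h3'
            exact ⟨(hcyc3 hZ).1, (hcyc3 hZ).2, hZ⟩
        · have hY := hsm _ _ (mul_ne_zero (mul_ne_zero hp hq) hb) h2'
          exact ⟨(hcyc2 hY).2, hY, (hcyc2 hY).1⟩
      · have hX := hsm _ _ (mul_ne_zero (mul_ne_zero hp hr) ha) h1'
        exact ⟨hX, (hcyc1 hX).1, (hcyc1 hX).2⟩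
    rw [eq_top_iff]
    intro u _
    obtain ⟨a, b, c, rfl⟩ := hrep u
    exact I.add_mem (I.add_mem (I.smul_mem _ hall.1) (I.smul_mem _ hall.2.1))
      (I.smul_mem _ hall.2.2)
  · intro hab
    have h1 : ⁅X, Y⁆ = 0 := hab.trivial X Y
    rw [hXY] at h1
    have h2 := (smul_eq_zero.1 h1).resolve_left hp
    exact hz0 (congrArg Subtype.val h2)

end simple3

/-- **MP_9adac4_al, Q1 (positive answer).** Let `L` be a simple Lie algebra of dimension greater
than three over a perfect field of characteristic two with a thin decomposition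
`L = ⨁ K e_α`. Then `L` has a proper simple graded subalgebra; in fact there are `α ≠ β` such that
`K e_α ⊕ K e_β ⊕ K e_(α+β)` is a simple subalgebra. -/
theorem result (K : Type*) [Field K] [CharP K 2] [PerfectField K] (L : Type*) [LieRing L]
    [LieAlgebra K L] [LieAlgebra.IsSimple K L] (hdim : 3 < Module.finrank K L) (n : ℕ)
    (D : ThinDecomposition K L n) :
    ∃ (S : Set {α : Fin n → ZMod 2 // α ≠ 0}) (M : LieSubalgebra K L),
      M.toSubmodule = Submodule.span K (D.e '' S) ∧ M ≠ ⊤ ∧ LieAlgebra.IsSimple K M ∧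
        ∃ α β γ : {α : Fin n → ZMod 2 // α ≠ 0}, S = {α, β, γ} ∧ α ≠ β ∧ γ.1 = α.1 + β.1 := by
  -- a line all of whose structure constants are nonzero
  obtain ⟨α, β, h1, h2, h3⟩ : ∃ α β, sc D α β ≠ 0 ∧ sc D α (α + β) ≠ 0 ∧ sc D β (α + β) ≠ 0 := by
    by_contra hcon
    push Not at hcon
    have hn : Nonempty (Fin n) := by
      by_contra hne
      rw [not_nonempty_iff] at hne
      have : Module.finrank K L = 0 := by
        rw [Module.finrank_eq_card_basis D.e, Fintype.card_eq_zero_iff]
        exact ⟨fun v => v.2 (Subsingleton.elim _ _)⟩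
      omega
    exact no_cycle (sc D) V2 (sc_self D) (sc_zero D) (sc_symm D) (sc_jac D) (lam_add D)
      (fun α β h h' => hcon α β h h') (fun v hv => incoming D v hv)
  have hα : α ≠ 0 := by
    rintro rfl
    rw [sc_symm] at h1
    exact h1 (sc_zero D _)
  have hβ : β ≠ 0 := by
    rintro rfl
    exact h1 (sc_zero D _)
  have hαβ : α ≠ β := by
    rintro rfl
    exact h1 (sc_self D _)
  have hγ : α + β ≠ 0 := by
    intro h
    rw [h] at h2
    exact h2 (sc_zero D _)
  obtain ⟨M, hM, hMs⟩ := simple3 (Ex D α) (Ex D β) (Ex D (α + β)) (sc D α β) (sc D β (α + β))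
    (sc D (α + β) α) h1 h3 (by rwa [sc_symm]) (Ex_ne D _ hγ) (grading D _ _)
    (by rw [grading, show β + (α + β) = α + (β + β) by abel, V2, add_zero])
    (by rw [grading, show α + β + α = β + (α + α) by abel, V2, add_zero])
  refine ⟨{⟨α, hα⟩, ⟨β, hβ⟩, ⟨α + β, hγ⟩}, M, ?_, ?_, hMs, ⟨α, hα⟩, ⟨β, hβ⟩, ⟨α + β, hγ⟩, rfl,
    fun h => hαβ (congrArg Subtype.val h), rfl⟩
  · rw [hM, Set.image_insert_eq, Set.image_insert_eq, Set.image_singleton, Ex_of D α hα,
      Ex_of D β hβ, Ex_of D _ hγ]
  · intro htop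
    have h4 : Module.finrank K L ≤ 3 := by
      have h5 : Submodule.span K {Ex D α, Ex D β, Ex D (α + β)} = ⊤ := by
        rw [← hM, htop]
        rfl
      have h6 : Module.finrank K (⊤ : Submodule K L) ≤ 3 := by
        classical
        rw [← h5]
        have h7 := finrank_span_finset_le_card (R := K)
          (({Ex D α, Ex D β, Ex D (α + β)} : Finset L))
        rw [Set.finrank, Finset.coe_insert, Finset.coe_insert, Finset.coe_singleton] at h7
        exact h7.trans Finset.card_le_three
      rwa [finrank_top] at h6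
    omega

end Pool.Agent.Results.MP_9adac4_al.SimpleLine
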